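import Mathlib

open Set Filter Topology Real Module
open scoped RealInnerProductSpace

namespace Pool.Agent.H.MP_c2e62a_gt

abbrev E := EuclideanSpace ℝ (Fin 3)

lemma perp (a b : E) : ∃ n : E, ‖n‖ = 1 ∧ ⟪a, n⟫ = 0 ∧ ⟪b, n⟫ = 0 := by
  classical
  have : (Submodule.span ℝ (({a, b} : Finset E) : Set E))ᗮ ≠ ⊥ := fun h => by
    have k := finrank_span_finset_le_card (R := ℝ) ({a, b} : Finset E)
    rw [Set.finrank, Submodule.orthogonal_eq_bot_iff.1 h] at k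
    have := k.trans Finset.card_le_two
    simp at this
  obtain ⟨n, hn, n0⟩ := Submodule.exists_mem_ne_zero_of_ne_bot this
  have k : ∀ x ∈ ({a, b} : Finset E), ⟪x, ‖n‖⁻¹ • n⟫ = 0 := fun x hx => by
    rw [inner_smul_right, Submodule.inner_right_of_mem_orthogonal (Submodule.subset_span hx) hn,
      mul_zero]
  exact ⟨_, norm_smul_inv_norm (𝕜 := ℝ) n0, k a (by simp), k b (by simp)⟩

lemma two {f : ℝ → ℝ} (hf : Continuous f) {a b : ℝ} (ha : Function.Periodic f a)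
    (hb : Function.Periodic f b) (h : Irrational (a / b)) (x : ℝ) : f x = f 0 := by
  refine congrFun (hf.ext_on (dense_addSubgroupClosure_pair_iff.2 h) continuous_const
    fun y hy => ?_) x
  have : Function.Periodic f y := by
    refine AddSubgroup.closure_induction (p := fun y _ => Function.Periodic f y) ?_
      (fun x => by simp) (fun _ _ _ _ p q => p.add_period q) (fun _ _ p => p.neg) hy
    rintro _ (rfl | rfl)
    exacts [ha, hb]
  exact this.eq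

lemma un {x : E} (h : ⟪x, x⟫ = 1) : ‖x‖ = 1 := by
  rw [real_inner_self_eq_norm_sq] at h
  exact (pow_eq_one_iff_of_nonneg (norm_nonneg _) two_ne_zero).1 h

lemma nrm {x : E} (h : x ≠ 0) : ‖‖x‖⁻¹ • x‖ = 1 := norm_smul_inv_norm (𝕜 := ℝ) h

variable {g : E → ℝ} {c : ℝ}

lemma inv (hg : Continuous g) (H : ∀ a b, ‖a‖ = 1 → ‖b‖ = 1 → ⟪a, b⟫ = -1 / 2 →
    g a + g b + g (-(a + b)) = c) (e f k : E) (he : ⟪e, e⟫ = 1) (hf : ⟪f, f⟫ = 1) (hk : ⟪k, k⟫ = 1)
    (ef : ⟪e, f⟫ = 0) (ek : ⟪e, k⟫ = 0) (fk : ⟪f, k⟫ = 0) (α τ : ℝ) (hτ : τ ∈ Icc (0 : ℝ) (1 / 2)) :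
    g (τ • e + √(1 - τ ^ 2) • (cos α • f + sin α • k)) -
      g (-τ • e + √(1 - τ ^ 2) • (cos α • f + sin α • k)) =
    g (τ • e + √(1 - τ ^ 2) • f) - g (-τ • e + √(1 - τ ^ 2) • f) := by
  obtain ⟨P, hP⟩ : ∃ P : ℝ → ℝ → ℝ → E, P = fun s τ α =>
    s • e + √(1 - τ ^ 2) • (cos α • f + sin α • k) := ⟨_, rfl⟩
  have ip : ∀ τ : ℝ, τ ^ 2 ≤ 1 → ∀ s t α β, ⟪P s τ α, P t τ β⟫ = s * t + (1 - τ ^ 2) * cos (α - β) := by
    intro τ h s t α β
    have := sq_sqrt (sub_nonneg.2 h)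
    simp only [hP, inner_add_left, inner_add_right, real_inner_smul_left, real_inner_smul_right, he,
      hf, hk, ef, ek, fk, real_inner_comm e f, real_inner_comm e k, real_inner_comm f k, cos_sub]
    linear_combination (cos α * cos β + sin α * sin β) * this
  let θ : ℝ → ℝ := fun τ => arccos ((τ ^ 2 - 1 / 2) / (1 - τ ^ 2))
  have cθ : ∀ τ ∈ Icc (0 : ℝ) (1 / 2), (1 - τ ^ 2) * cos (θ τ) = τ ^ 2 - 1 / 2 := fun τ h => by
    have a : τ ^ 2 ≤ 1 / 4 := by nlinarith [h.1, h.2]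
    have b : 0 < 1 - τ ^ 2 := by linarith
    rw [cos_arccos (by rw [le_div_iff₀ b]; linarith) (by rw [div_le_iff₀ b]; linarith)]
    field_simp
  have iθ : InjOn (fun τ => θ τ / (2 * π)) (Icc 0 (1 / 2)) := fun s hs t ht h => by
    have a := cθ s hs
    have b := cθ t ht
    rw [(div_left_inj' two_pi_pos.ne').1 h] at a
    have d : (s ^ 2 - t ^ 2) * (1 + cos (θ t)) = 0 := by linarith
    have e : 1 + cos (θ t) ≠ 0 := fun k => by
      rw [show cos (θ t) = -1 by linarith] at b; linarith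
    exact (pow_left_inj₀ hs.1 ht.1 two_ne_zero).1 (sub_eq_zero.1 ((mul_eq_zero.1 d).resolve_right e))
  have cP : ∀ s : ℝ, Continuous fun p : ℝ × ℝ => g (P (s * p.1) p.1 p.2) := fun s =>
    hg.comp (by rw [hP]; fun_prop)
  obtain ⟨F, hF⟩ : ∃ F : ℝ → ℝ → ℝ, F = fun τ α => g (P τ τ α) - g (P (-τ) τ α) := ⟨_, rfl⟩
  have cF : Continuous fun p : ℝ × ℝ => F p.1 p.2 := by
    simpa [hF, Pi.sub_def] using (cP 1).sub (cP (-1))
  have key : ∀ τ ∈ Icc (0 : ℝ) (1 / 2), Irrational (θ τ / (2 * π)) → F τ α = F τ 0 := fun τ h i => by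
    refine two (cF.comp (Continuous.prodMk_right τ)) (fun β => ?_) (fun β => by simp [hF, hP]) i α
    have a : τ ^ 2 ≤ 1 := by nlinarith [h.1, h.2]
    have n : ∀ s β, s * s = τ ^ 2 → ‖P s τ β‖ = 1 := fun s β hs => un (by rw [ip _ a, hs]; simp)
    have b := H (P τ τ (β + θ τ)) (P (-τ) τ β) (n _ _ (by ring)) (n _ _ (by ring))
      (by rw [ip _ a, add_sub_cancel_left, cθ τ h]; ring)
    have d := H (P (-τ) τ (β + θ τ)) (P τ τ β) (n _ _ (by ring)) (n _ _ (by ring))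
      (by rw [ip _ a, add_sub_cancel_left, cθ τ h]; ring)
    rw [show P (-τ) τ (β + θ τ) + P τ τ β = P τ τ (β + θ τ) + P (-τ) τ β by simp only [hP]; module] at d
    simp only [hF, Function.comp]; linarith
  have cnt : (Icc 0 (1 / 2) ∩ (fun τ => θ τ / (2 * π)) ⁻¹' range ((↑) : ℚ → ℝ)).Countable :=
    countable_of_injective_of_countable_image (iθ.mono inter_subset_left)
      ((countable_range _).mono (by rintro _ ⟨τ, h, rfl⟩; exact h.2))
  have cl : Icc (0 : ℝ) (1 / 2) ⊆ {τ | F τ α = F τ 0} := by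
    rw [← closure_Ioo (by norm_num)]
    refine closure_minimal ((cnt.dense_compl ℝ).open_subset_closure_inter isOpen_Ioo |>.trans
      (closure_minimal (fun τ h => key τ (Ioo_subset_Icc_self h.1) fun k =>
        h.2 ⟨Ioo_subset_Icc_self h.1, k⟩) ?_)) ?_ <;>
    exact isClosed_eq (cF.comp (Continuous.prodMk_left α)) (cF.comp (Continuous.prodMk_left 0))
  simpa [hF, hP] using cl hτ

lemma dif (hg : Continuous g) (H : ∀ a b, ‖a‖ = 1 → ‖b‖ = 1 → ⟪a, b⟫ = -1 / 2 →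
    g a + g b + g (-(a + b)) = c) (x y x' y' : E) (hx : ‖x‖ = 1) (hy : ‖y‖ = 1) (hx' : ‖x'‖ = 1)
    (hy' : ‖y'‖ = 1) (h : x - y = x' - y') (l : ‖x - y‖ ≤ 1) : g x - g y = g x' - g y' := by
  obtain ⟨v, hv⟩ : ∃ v, v = x - y := ⟨_, rfl⟩
  by_cases v0 : v = 0
  · rw [sub_eq_zero.1 (h.symm.trans (hv.symm.trans v0)), sub_eq_zero.1 (hv.symm.trans v0)]; simp
  have n0 := norm_pos_iff.2 v0
  rw [← hv] at l
  obtain ⟨τ, hτ⟩ : ∃ τ, τ = ‖v‖ / 2 := ⟨_, rfl⟩
  obtain ⟨e, he, ev⟩ : ∃ e : E, ⟪e, e⟫ = 1 ∧ v = (2 * τ) • e := ⟨‖v‖⁻¹ • v, by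
    rw [real_inner_self_eq_norm_sq, nrm v0, one_pow], by
    rw [smul_smul, hτ, mul_div_cancel₀ _ two_ne_zero, mul_inv_cancel₀ n0.ne', one_smul]⟩
  have t0 : 0 < τ := by linarith
  have r0 : 0 < 1 - τ ^ 2 := by nlinarith
  have r1 := sqrt_pos.2 r0
  have r2 := sq_sqrt r0.le
  have mid : ∀ x y : E, ‖x‖ = 1 → ‖y‖ = 1 → x - y = (2 * τ) • e → ∃ f : E, ⟪f, f⟫ = 1 ∧ ⟪e, f⟫ = 0 ∧
      x = τ • e + √(1 - τ ^ 2) • f ∧ y = -τ • e + √(1 - τ ^ 2) • f := fun x y hx hy h => by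
    obtain ⟨m, rfl⟩ : ∃ m, x = τ • e + m := ⟨x - τ • e, by simp⟩
    obtain rfl : y = -τ • e + m := by linear_combination (norm := module) -h
    rw [← sq_eq_sq₀ (norm_nonneg _) zero_le_one, ← real_inner_self_eq_norm_sq] at hx hy
    simp only [inner_add_left, inner_add_right, real_inner_smul_left, real_inner_smul_right, he,
      real_inner_comm e m] at hx hy
    have a : ⟪e, m⟫ = 0 := by nlinarith
    refine ⟨(√(1 - τ ^ 2))⁻¹ • m, ?_, by rw [real_inner_smul_right, a, mul_zero], by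
      simp [smul_smul, r1.ne'], by simp [smul_smul, r1.ne']⟩
    rw [real_inner_smul_left, real_inner_smul_right]
    field_simp
    rw [a] at hx; linarith
  obtain ⟨f, f1, f2, rfl, rfl⟩ := mid x y hx hy (hv.symm.trans ev)
  obtain ⟨f', g1, g2, rfl, rfl⟩ := mid x' y' hx' hy' (h.symm.trans (hv.symm.trans ev))
  obtain ⟨k, k1, k2, k3, q, k4⟩ : ∃ k : E, ⟪k, k⟫ = 1 ∧ ⟪e, k⟫ = 0 ∧ ⟪f, k⟫ = 0 ∧
      ∃ q : ℝ, f' = ⟪f, f'⟫ • f + q • k := by
    by_cases w0 : f' - ⟪f, f'⟫ • f = 0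
    · obtain ⟨n, a, b, d⟩ := perp e f
      exact ⟨n, by rw [real_inner_self_eq_norm_sq, a, one_pow], b, d, 0, by simpa [sub_eq_zero] using w0⟩
    · refine ⟨‖f' - ⟪f, f'⟫ • f‖⁻¹ • (f' - ⟪f, f'⟫ • f), by
        rw [real_inner_self_eq_norm_sq, nrm w0, one_pow], ?_, ?_,
        ‖f' - ⟪f, f'⟫ • f‖, by rw [smul_smul, mul_inv_cancel₀ (norm_ne_zero_iff.2 w0)]; simp⟩ <;>
      simp only [inner_sub_right, real_inner_smul_right, f1, f2, g2] <;> ring
  generalize ⟪f, f'⟫ = p at k4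
  have pq : p ^ 2 + q ^ 2 = 1 := by
    rw [k4] at g1
    simp only [inner_add_left, inner_add_right, real_inner_smul_left, real_inner_smul_right, f1, k1,
      k3, real_inner_comm f k] at g1
    linarith
  have z : ‖(⟨p, q⟩ : ℂ)‖ = 1 := by rw [Complex.norm_eq_sqrt_sq_add_sq, pq, sqrt_one]
  have z0 : (⟨p, q⟩ : ℂ) ≠ 0 := fun h => by simp [h] at z
  have := inv hg H e f k he f1 k1 f2 k2 k3 (Complex.arg ⟨p, q⟩) τ ⟨t0.le, by linarith⟩
  rw [Complex.cos_arg z0, Complex.sin_arg, z, div_one, div_one, ← k4] at this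
  exact this.symm

lemma tri (a b : E) (h : ⟪a, b⟫ = 0) (l : ‖a + b‖ ≤ 1) :
    ∃ x : E, ‖x‖ = 1 ∧ ‖x + a‖ = 1 ∧ ‖x + a + b‖ = 1 := by
  obtain ⟨n, n1, n2, n3⟩ := perp a b
  have l2 : ⟪a + b, a + b⟫ ≤ 1 := by
    rw [real_inner_self_eq_norm_sq]; exact pow_le_one₀ (norm_nonneg _) l
  simp only [inner_add_left, inner_add_right, h, real_inner_comm a b] at l2
  have r := sq_sqrt (show 0 ≤ 1 - (⟪a, a⟫ + ⟪b, b⟫) / 4 by linarith)
  have n4 : ⟪n, n⟫ = 1 := by rw [real_inner_self_eq_norm_sq, n1, one_pow]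
  refine ⟨√(1 - (⟪a, a⟫ + ⟪b, b⟫) / 4) • n + (-1 / 2 : ℝ) • (a + b), un ?_, un ?_, un ?_⟩ <;>
  simp only [inner_add_left, inner_add_right, real_inner_smul_left, real_inner_smul_right, h, n2, n3,
    n4, real_inner_comm a b, real_inner_comm a n, real_inner_comm b n] <;> linarith

lemma cau {χ : ℝ → ℝ} (hc : ContinuousOn χ (Icc 0 1))
    (h : ∀ a b, 0 ≤ a → 0 ≤ b → a + b ≤ 1 → χ (a + b) = χ a + χ b) (h1 : χ 1 = 0) :
    ∀ a ∈ Icc (0 : ℝ) 1, χ a = 0 := by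
  obtain ⟨a, ha, m⟩ := isCompact_Icc.exists_isMaxOn (nonempty_Icc.2 zero_le_one) hc.abs
  have k : ∀ b ∈ Icc (0 : ℝ) (1 / 2), |χ b| = |χ a| → |χ a| ≤ 0 := fun b hb e => by
    have := m (a := b + b) ⟨by linarith [hb.1], by linarith [hb.2]⟩
    simp only [mem_setOf_eq] at this
    rw [h b b hb.1 hb.1 (by linarith [hb.2]), ← two_mul, abs_mul, e, abs_two] at this
    linarith
  have z : |χ a| ≤ 0 := by
    rcases le_total a (1 / 2) with l | l
    · exact k a ⟨ha.1, l⟩ rfl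
    · refine k (1 - a) ⟨by linarith [ha.2], by linarith⟩ ?_
      have := h a (1 - a) ha.1 (by linarith [ha.2]) (by linarith)
      rw [add_sub_cancel, h1] at this
      rw [show χ (1 - a) = -χ a by linarith, abs_neg]
  exact fun b hb => abs_nonpos_iff.1 ((m hb).trans z)

theorem lin (hg : Continuous g) (H : ∀ a b, ‖a‖ = 1 → ‖b‖ = 1 → ⟪a, b⟫ = -1 / 2 →
    g a + g b + g (-(a + b)) = c) : ∃ (l : E) (r : ℝ), ∀ u, ‖u‖ = 1 → g u = ⟪u, l⟫ + r := by
  obtain ⟨φ, hφ⟩ : ∃ φ : E → ℝ, ∀ x v, ‖x‖ = 1 → ‖x + v‖ = 1 → ‖v‖ ≤ 1 → φ v = g (x + v) - g x := by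
    have : ∀ v : E, ‖v‖ ≤ 1 → ∃ x : E, ‖x‖ = 1 ∧ ‖x + v‖ = 1 := fun v h => by
      obtain ⟨x, a, b, -⟩ := tri v 0 (by simp) (by simpa)
      exact ⟨x, a, b⟩
    choose! X h1 h2 using this
    exact ⟨fun v => g (X v + v) - g (X v), fun x v a b l =>
      dif hg H _ _ _ _ (h2 v l) (h1 v l) b a (by simp) (by simpa)⟩
  have ad : ∀ a b : E, ⟪a, b⟫ = 0 → ‖a + b‖ ≤ 1 → φ (a + b) = φ a + φ b := fun a b h l => by
    obtain ⟨x, x1, x2, x3⟩ := tri a b h l
    have := norm_add_sq_eq_norm_sq_add_norm_sq_real h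
    rw [hφ x (a + b) x1 (by rwa [← add_assoc]) l, hφ x a x1 x2 (by nlinarith [norm_nonneg a, norm_nonneg (a + b)]),
      hφ (x + a) b x2 x3 (by nlinarith [norm_nonneg b, norm_nonneg (a + b)]), add_assoc]
    ring
  have od : ∀ v : E, ‖v‖ ≤ 1 → φ (-v) = -φ v := fun v l => by
    obtain ⟨x, a, b, -⟩ := tri v 0 (by simp) (by simpa)
    rw [hφ x v a b l, hφ (x + v) (-v) b (by simpa) (by simpa)]; simp
  have le1 : ∀ v : E, ⟪v, v⟫ ≤ 1 → ‖v‖ ≤ 1 := fun v h => by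
    rw [real_inner_self_eq_norm_sq] at h; nlinarith [norm_nonneg v]
  have hom : ∀ e : E, ‖e‖ = 1 → ∀ a, |a| ≤ 1 → φ (a • e) = a * φ e := fun e he => by
    obtain ⟨f, f1, f2, -⟩ := perp e e
    have e1 : ⟪e, e⟫ = 1 := by rw [real_inner_self_eq_norm_sq, he, one_pow]
    have f3 : ⟪f, f⟫ = 1 := by rw [real_inner_self_eq_norm_sq, f1, one_pow]
    have ip : ∀ a b c d : ℝ, ⟪a • e + b • f, c • e + d • f⟫ = a * c + b * d := fun a b c d => by
      simp only [inner_add_left, inner_add_right, real_inner_smul_left, real_inner_smul_right, e1,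
        f2, f3, real_inner_comm e f]; ring
    have k := cau (χ := fun a => φ (a • e) - a * φ e) ?_ (fun a b ha hb l => ?_) (by simp)
    · intro a ha
      rcases le_total 0 a with l | l
      · exact sub_eq_zero.1 (k a ⟨l, (abs_le.1 ha).2⟩)
      · have := sub_eq_zero.1 (k (-a) ⟨by linarith, by linarith [(abs_le.1 ha).1]⟩)
        rw [neg_smul, od _ (by simpa [norm_smul, he])] at this
        linarith
    · refine ContinuousOn.congr (f := fun a => g ((-a / 2) • e + √(1 - a ^ 2 / 4) • f + a • e) -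
        g ((-a / 2) • e + √(1 - a ^ 2 / 4) • f) - a * φ e) (by fun_prop) fun a ha => ?_
      have r := sq_sqrt (show 0 ≤ 1 - a ^ 2 / 4 by nlinarith [ha.1, ha.2])
      simp only
      rw [hφ ((-a / 2) • e + √(1 - a ^ 2 / 4) • f) (a • e) (un (by rw [ip]; linarith)) (un ?_) (by simpa [norm_smul, he, abs_of_nonneg ha.1] using ha.2)]
      rw [show (-a / 2) • e + √(1 - a ^ 2 / 4) • f + a • e = (a / 2) • e + √(1 - a ^ 2 / 4) • f by
        module, ip]; linarith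
    · have r := sq_sqrt (mul_nonneg ha hb)
      generalize √(a * b) = s at r
      have o : ∀ a s : ℝ, ⟪a • e, s • f⟫ = 0 := fun a s => by
        simp only [real_inner_smul_left, real_inner_smul_right, f2, mul_zero]
      have a1 := ad (a • e + s • f) (b • e + (-s) • f) (by rw [ip]; linarith) (by
        rw [show a • e + s • f + (b • e + (-s) • f) = (a + b) • e by module]
        simpa [norm_smul, he, abs_of_nonneg (add_nonneg ha hb)])
      rw [show a • e + s • f + (b • e + (-s) • f) = (a + b) • e by module,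
        ad _ _ (o _ _) (le1 _ (by rw [ip]; nlinarith)), ad _ _ (o _ _) (le1 _ (by rw [ip]; nlinarith)),
        neg_smul, od _ (le1 _ (by
          rw [real_inner_smul_left, real_inner_smul_right, f3]; nlinarith))] at a1
      linarith
  let b := EuclideanSpace.basisFun (Fin 3) ℝ
  let l : E := !₂[φ (b 0), φ (b 1), φ (b 2)]
  have fl : ∀ v : E, ‖v‖ ≤ 1 → φ v = ⟪v, l⟫ := fun v h => by
    have e : v = v 0 • b 0 + v 1 • b 1 + v 2 • b 2 := by
      ext i; fin_cases i <;> simp [b]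
    have n := EuclideanSpace.real_norm_sq_eq v
    rw [Fin.sum_univ_three] at n
    have n2 : ‖v‖ ^ 2 ≤ 1 := pow_le_one₀ (norm_nonneg _) h
    have c : ∀ i, |v i| ≤ 1 := fun i => (PiLp.norm_apply_le v i).trans h
    conv_lhs => rw [e]
    have o := orthonormal_iff_ite.1 b.orthonormal
    rw [ad _ _ (by simp [inner_add_left, inner_smul_left, inner_smul_right, o]) (e ▸ h),
      ad _ _ (by simp [inner_smul_left, inner_smul_right, o]) (le1 _ (by
        simp only [inner_add_left, inner_add_right, real_inner_smul_left, real_inner_smul_right, o]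
        simp; nlinarith)),
      hom _ (b.orthonormal.1 _) _ (c _), hom _ (b.orthonormal.1 _) _ (c _),
      hom _ (b.orthonormal.1 _) _ (c _)]
    simp [l, PiLp.inner_apply, Fin.sum_univ_three]; ring
  have := Subtype.preconnectedSpace (isPreconnected_sphere (E := E) (by
    rw [← finrank_eq_rank]; simp) 0 1)
  have lc := (IsLocallyConstant.iff_eventually_eq fun x : Metric.sphere (0 : E) 1 =>
      g x - ⟪x.1, l⟫).2 fun x => by
    filter_upwards [Metric.closedBall_mem_nhds x one_pos] with y hy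
    have a := hφ x (y - x) (by simp) (by simp) (by rwa [← dist_eq_norm])
    rw [fl _ (by rwa [← dist_eq_norm]), add_sub_cancel, inner_sub_left] at a
    linarith
  refine ⟨l, g (b 0) - ⟪b 0, l⟫, fun u hu => ?_⟩
  have := lc.apply_eq_of_preconnectedSpace ⟨u, by simpa⟩ ⟨b 0, by simp⟩
  linarith

end Pool.Agent.H.MP_c2e62a_gt
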